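import Pool.Agent.helper67.GV.Asm

/-!
# MP_89787e_co: Gallai-Ramsey numbers and off-diagonal Ramsey numbers (helper6)
-/

set_option autoImplicit false

open Finset Filter Topology

namespace Pool.Agent.helper6.RD

open Pool.Agent.helper21.GR Pool.Agent.helper67.GV

/-- the two-colour Ramsey set -/
def OSet (s t : ℕ) : Set ℕ :=
  {n : ℕ | ∀ f : Fin n → Fin n → Fin 2, (∀ a b : Fin n, f a b = f b a) →
    (∃ S : Finset (Fin n), S.card = s ∧ ∀ x ∈ S, ∀ y ∈ S, x ≠ y → f x y = 0) ∨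
    ∃ S : Finset (Fin n), S.card = t ∧ ∀ x ∈ S, ∀ y ∈ S, x ≠ y → f x y = 1}

/-- the number `R(a+1, b+1) - 1` -/
noncomputable def rho (a b : ℕ) : ℕ := sInf (OSet (a + 1) (b + 1)) - 1

theorem OSet_diag (t : ℕ) : OSet t t = RSet t := by
  ext n
  constructor
  · intro h f hf
    rcases h f hf with ⟨S, hS, h0⟩ | ⟨S, hS, h0⟩
    · exact ⟨S, hS, 0, h0⟩
    · exact ⟨S, hS, 1, h0⟩
  · intro h f hf
    obtain ⟨S, hS, i, hi⟩ := h f hf
    have h01 : ∀ i : Fin 2, i = 0 ∨ i = 1 := by decide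
    rcases h01 i with rfl | rfl
    · exact Or.inl ⟨S, hS, hi⟩
    · exact Or.inr ⟨S, hS, hi⟩

theorem rho_diag (T : ℕ) : rho T T = K0 T := by
  unfold rho K0
  rw [OSet_diag]

theorem rho_notMem (a b : ℕ) : rho a b ∉ OSet (a + 1) (b + 1) := by
  by_cases h : sInf (OSet (a + 1) (b + 1)) = 0
  · have h0 : rho a b = 0 := by unfold rho; omega
    rw [h0]
    intro hm
    rcases hm (fun _ _ => 0) (fun _ _ => rfl) with ⟨S, hS, -⟩ | ⟨S, hS, -⟩
    · have := S.card_le_univ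
      rw [Fintype.card_fin] at this
      omega
    · have := S.card_le_univ
      rw [Fintype.card_fin] at this
      omega
  · apply Nat.notMem_of_lt_sInf
    unfold rho
    omega

theorem bd_of_not {n : ℕ} (f : Fin n → Fin n → Fin 2) (i : Fin 2) (a : ℕ)
    (h : ¬ ∃ S : Finset (Fin n), S.card = a + 1 ∧ ∀ x ∈ S, ∀ y ∈ S, x ≠ y → f x y = i) :
    Bd (fun u v => f u v = i) univ (fun _ => 1) a := by
  intro K _ hK
  rw [sum_const, smul_eq_mul, mul_one]
  by_contra hcon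
  obtain ⟨S, hS, hc⟩ := exists_subset_card_eq (show a + 1 ≤ K.card by omega)
  exact h ⟨S, hc, fun x hx y hy hxy => hK x (hS hx) y (hS hy) hxy⟩

/-- an extremal colouring -/
theorem rho_ex (a b : ℕ) : ∃ r : Fin (rho a b) → Fin (rho a b) → Prop, (∀ u v, r u v → r v u) ∧
    Bd r univ (fun _ => 1) a ∧ Bd (fun u v => ¬ r u v) univ (fun _ => 1) b := by
  have h := rho_notMem a b
  have h' : ∃ f : Fin (rho a b) → Fin (rho a b) → Fin 2, (∀ u v, f u v = f v u) ∧
      (¬ ∃ S : Finset (Fin (rho a b)), S.card = a + 1 ∧ ∀ x ∈ S, ∀ y ∈ S, x ≠ y → f x y = 0) ∧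
      ¬ ∃ S : Finset (Fin (rho a b)), S.card = b + 1 ∧ ∀ x ∈ S, ∀ y ∈ S, x ≠ y → f x y = 1 := by
    by_contra hcon
    apply h
    intro f hf
    by_contra hno
    exact hcon ⟨f, hf, fun h1 => hno (Or.inl h1), fun h1 => hno (Or.inr h1)⟩
  obtain ⟨f, hf, h0, h1⟩ := h'
  refine ⟨fun u v => f u v = 0, fun u v huv => by show f v u = 0; rw [hf]; exact huv,
    bd_of_not f 0 a h0, ?_⟩
  intro Q hQ hc
  apply bd_of_not f 1 b h1 Q hQ
  intro u hu v hv huv
  have : ∀ z : Fin 2, z ≠ 0 → z = 1 := by decide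
  exact this _ (hc u hu v hv huv)

theorem bd_false {V : Type} [DecidableEq V] (S : Finset V) (x : V → ℕ) (T : ℕ)
    (h : ∀ v, x v ≤ T) : Bd (fun _ _ : V => False) S x T := by
  intro K _ hK
  rcases K.eq_empty_or_nonempty with rfl | ⟨v, hv⟩
  · simp
  · have : K = {v} := by
      ext u
      rw [mem_singleton]
      constructor
      · intro hu
        by_contra hne
        exact hK u hu v hv hne
      · rintro rfl
        exact hv
    rw [this, sum_singleton]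
    exact h v

theorem bd_all {V : Type} [Fintype V] [DecidableEq V] (r : V → V → Prop) (x : V → ℕ) (T : ℕ)
    (h : ∑ v, x v ≤ T) : Bd r univ x T := by
  intro K hK _
  exact (sum_le_sum_of_subset hK).trans h

/-- `Fm` with one more color of capacity 1 -/
theorem Fm_one {T : ℕ} (hT : 2 ≤ T) (s : Multiset ℕ) (hs : ∀ c ∈ s, 1 ≤ c ∧ c ≤ T) :
    Fm s ≤ Fm (1 ::ₘ s) := (Asm_FMH T s 1 hT hs le_rfl (by omega)).1

theorem sub_mult (a b A B y : ℕ) (s : Multiset ℕ)
    (hA : a * y ≤ A) (hb : b ≤ B) : rho a b * Fm (y ::ₘ 1 ::ₘ s) ≤ Fm (A ::ₘ B ::ₘ s) := by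
  obtain ⟨r, hr, h1, h2⟩ := rho_ex a b
  have h := Asm_FMI (rho a b) r (fun _ => y) (fun _ => 1) A B s hr ?_ (h2.le hb)
  · simpa using h
  · intro K hK hc
    have h3 := h1 K hK hc
    rw [sum_const, smul_eq_mul, mul_one] at h3
    rw [sum_const, smul_eq_mul]
    exact (Nat.mul_le_mul_right y h3).trans hA

/-- join in one colour -/
theorem join2 (A B B' T : ℕ) (s : Multiset ℕ) (h : B + B' ≤ T) :
    Fm (A ::ₘ B ::ₘ s) + Fm (A ::ₘ B' ::ₘ s) ≤ Fm (A ::ₘ T ::ₘ s) := by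
  have h := Asm_FMI 2 (fun _ _ => False) (fun _ => A) (![B, B']) A T s (fun _ _ h => h)
    (bd_false _ _ _ (fun _ => le_rfl)) (bd_all _ _ _ (by simpa using h))
  simpa [Fin.sum_univ_two] using h

/-- join of `n` copies in one colour -/
theorem joinn (A n : ℕ) (s : Multiset ℕ) :
    n * Fm (A ::ₘ 1 ::ₘ s) ≤ Fm (A ::ₘ n ::ₘ s) := by
  have h := Asm_FMI n (fun _ _ => False) (fun _ => A) (fun _ => 1) A n s (fun _ _ h => h)
    (bd_false _ _ _ (fun _ => le_rfl)) (bd_all _ _ _ (by simp))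
  simpa using h

/-- the lower bound, general form -/
theorem lowerW (T m B n : ℕ) (hT : 2 ≤ T) (hB : B ≤ T) (r : Fin n → Fin n → Prop)
    (a : Fin n → ℕ) (hr : ∀ u v, r u v → r v u) (ha : ∀ v, 1 ≤ a v) (h1a : Bd r univ a T)
    (h2a : Bd (fun u v => ¬ r u v) univ (fun _ => 1) B) :
    (∑ v, rho (a v) T + (T - B) * K0 T) * K0 T ^ m ≤ Fm (Multiset.replicate (2 * m + 3) T) := by
  set w := Multiset.replicate (2 * m) T with hw
  have haT : ∀ v, a v ≤ T := fun v => h1a.single (mem_univ v)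
  have hwc : ∀ c ∈ w, 1 ≤ c ∧ c ≤ T := by
    intro c hc
    rw [Multiset.eq_of_mem_replicate hc]
    exact ⟨by omega, le_rfl⟩
  have hcons : ∀ (a : ℕ) (s : Multiset ℕ), 1 ≤ a → a ≤ T → (∀ c ∈ s, 1 ≤ c ∧ c ≤ T) →
      ∀ c ∈ a ::ₘ s, 1 ≤ c ∧ c ≤ T := by
    intro a s h1 h2 hs c hc
    rcases Multiset.mem_cons.1 hc with rfl | hc
    · exact ⟨h1, h2⟩
    · exact hs c hc
  have e1 : Multiset.replicate (2 * m + 3) T = T ::ₘ T ::ₘ T ::ₘ w := by
    rw [hw, Multiset.replicate_succ, Multiset.replicate_succ, Multiset.replicate_succ]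
  have e2 : T ::ₘ T ::ₘ w = Multiset.replicate (2 * (m + 1)) T := by
    rw [hw, show 2 * (m + 1) = 2 * m + 1 + 1 by ring, Multiset.replicate_succ,
      Multiset.replicate_succ]
  have h1 := join2 T B (T - B) T (T ::ₘ w) (by omega)
  have h2 := joinn T (T - B) (T ::ₘ w)
  have h3 : K0 T ^ (m + 1) ≤ Fm (T ::ₘ 1 ::ₘ T ::ₘ w) := by
    rw [Multiset.cons_swap]
    refine le_trans ?_ (Fm_one hT _ (hcons _ _ (by omega) le_rfl (hcons _ _ (by omega) le_rfl hwc)))
    rw [e2]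
    exact Asm_LOW T (m + 1) hT
  have h4 : ∑ v, Fm (a v ::ₘ 1 ::ₘ T ::ₘ w) ≤ Fm (T ::ₘ B ::ₘ T ::ₘ w) :=
    Asm_FMI n r a (fun _ => 1) T B (T ::ₘ w) hr h1a h2a
  have h6 : K0 T ^ m ≤ Fm (1 ::ₘ 1 ::ₘ w) :=
    ((Asm_LOW T m hT).trans (Fm_one hT _ hwc)).trans
      (Fm_one hT _ (hcons _ _ le_rfl (by omega) hwc))
  have h5 : ∀ v, rho (a v) T * K0 T ^ m ≤ Fm (a v ::ₘ 1 ::ₘ T ::ₘ w) := by
    intro v
    have h5 : rho (a v) T * Fm (1 ::ₘ 1 ::ₘ w) ≤ Fm (a v ::ₘ T ::ₘ w) :=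
      sub_mult (a v) T (a v) T 1 w (by omega) le_rfl
    have h7 : Fm (a v ::ₘ T ::ₘ w) ≤ Fm (a v ::ₘ 1 ::ₘ T ::ₘ w) := by
      rw [Multiset.cons_swap (a v) 1]
      exact Fm_one hT _ (hcons _ _ (ha v) (haT v) (hcons _ _ (by omega) le_rfl hwc))
    exact (Nat.mul_le_mul_left _ h6).trans (h5.trans h7)
  rw [e1]
  calc (∑ v, rho (a v) T + (T - B) * K0 T) * K0 T ^ m
      = ∑ v, rho (a v) T * K0 T ^ m + (T - B) * K0 T ^ (m + 1) := by
        rw [add_mul, sum_mul]; ring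
    _ ≤ ∑ v, Fm (a v ::ₘ 1 ::ₘ T ::ₘ w) + (T - B) * Fm (T ::ₘ 1 ::ₘ T ::ₘ w) :=
        Nat.add_le_add (sum_le_sum fun v _ => h5 v) (Nat.mul_le_mul_left _ h3)
    _ ≤ Fm (T ::ₘ B ::ₘ T ::ₘ w) + Fm (T ::ₘ (T - B) ::ₘ T ::ₘ w) := Nat.add_le_add h4 h2
    _ ≤ _ := h1

/-- the lower bound, from off-diagonal Ramsey numbers -/
theorem lower (T m x B : ℕ) (hT : 2 ≤ T) (hx : 1 ≤ x) (hxT : x ≤ T) (hB : B ≤ T) :
    (rho x B * rho (T / x) T + (T - B) * K0 T) * K0 T ^ m ≤ Fm (Multiset.replicate (2 * m + 3) T) := by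
  have hy : 1 ≤ T / x := (Nat.one_le_div_iff (by omega)).2 hxT
  obtain ⟨r, hr, h1, h2⟩ := rho_ex x B
  have h := lowerW T m B (rho x B) hT hB r (fun _ => T / x) hr (fun _ => hy) ?_ h2
  · simpa using h
  · intro K hK hc
    have h3 := h1 K hK hc
    rw [sum_const, smul_eq_mul, mul_one] at h3
    rw [sum_const, smul_eq_mul]
    exact (Nat.mul_le_mul_right _ h3).trans (Nat.mul_div_le T x)

/-- cancellation -/
theorem cancel (T m B X : ℕ) (hT : 2 ≤ T) (hB : B ≤ T)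
    (h1 : (X + (T - B) * K0 T) * K0 T ^ m ≤ T * K0 T ^ (m + 1)) : X ≤ B * K0 T := by
  have hK : 0 < K0 T := (RAM T hT).2.1
  have h2 : (X + (T - B) * K0 T) * K0 T ^ m ≤ (T * K0 T) * K0 T ^ m := by
    refine h1.trans (le_of_eq (by ring))
  have h3 := Nat.le_of_mul_le_mul_right h2 (pow_pos hK m)
  have h4 : T * K0 T = B * K0 T + (T - B) * K0 T := by
    rw [← Nat.add_mul]
    congr 1
    omega
  omega

theorem OSet_two (t : ℕ) : sInf (OSet 2 t) = t := by
  classical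
  have hmem : t ∈ OSet 2 t := by
    intro f hf
    by_cases h : ∃ a b : Fin t, a ≠ b ∧ f a b = 0
    · obtain ⟨a, b, hab, h0⟩ := h
      left
      refine ⟨{a, b}, card_pair hab, ?_⟩
      intro x hx y hy hxy
      simp only [mem_insert, mem_singleton] at hx hy
      rcases hx with rfl | rfl <;> rcases hy with rfl | rfl
      · exact absurd rfl hxy
      · exact h0
      · rw [hf]; exact h0
      · exact absurd rfl hxy
    · right
      refine ⟨univ, by simp, ?_⟩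
      intro x _ y _ hxy
      have : ∀ z : Fin 2, z ≠ 0 → z = 1 := by decide
      exact this _ (fun h0 => h ⟨x, y, hxy, h0⟩)
  apply le_antisymm (Nat.sInf_le hmem)
  apply le_csInf ⟨t, hmem⟩
  intro n hn
  by_contra hlt
  rcases hn (fun _ _ => 1) (fun _ _ => rfl) with ⟨S, hS, h0⟩ | ⟨S, hS, -⟩
  · obtain ⟨x, y, hxy, rfl⟩ := card_eq_two.1 hS
    exact absurd (h0 x (by simp) y (by simp) hxy) (by decide)
  · have := S.card_le_univ
    simp at this
    omega

theorem OSet_nonempty (s t : ℕ) : (OSet s t).Nonempty := by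
  have hR : (RSet (max s t + 2 + 1)).Nonempty := by
    by_contra h
    rw [Set.not_nonempty_iff_eq_empty] at h
    have h1 := (RAM (max s t + 2) (by omega)).2.1
    unfold K0 at h1
    rw [h] at h1
    simp at h1
  obtain ⟨n, hn⟩ := hR
  refine ⟨n, fun f hf => ?_⟩
  obtain ⟨S, hS, i, hi⟩ := hn f hf
  have h01 : ∀ i : Fin 2, i = 0 ∨ i = 1 := by decide
  rcases h01 i with rfl | rfl
  · obtain ⟨S', hS', hc⟩ := exists_subset_card_eq (show s ≤ S.card by omega)
    exact Or.inl ⟨S', hc, fun x hx y hy hxy => hi x (hS' hx) y (hS' hy) hxy⟩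
  · obtain ⟨S', hS', hc⟩ := exists_subset_card_eq (show t ≤ S.card by omega)
    exact Or.inr ⟨S', hc, fun x hx y hy hxy => hi x (hS' hx) y (hS' hy) hxy⟩

theorem OSet_pos (s t : ℕ) (hs : 1 ≤ s) (ht : 1 ≤ t) : 1 ≤ sInf (OSet s t) := by
  apply le_csInf (OSet_nonempty s t)
  intro n hn
  by_contra h
  have h0 : n = 0 := by omega
  subst h0
  rcases hn (fun _ _ => 0) (fun _ _ => rfl) with ⟨S, hS, -⟩ | ⟨S, hS, -⟩
  · have := S.card_le_univ
    rw [Fintype.card_fin] at this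
    omega
  · have := S.card_le_univ
    rw [Fintype.card_fin] at this
    omega

/-- consequence of the formula for infinitely many `k` -/
theorem freq_cons (T B : ℕ) (hT : 2 ≤ T) (hB : 1 ≤ B) (hBT : B < T)
    (h : ∃ᶠ k : ℕ in atTop, Fm (Multiset.replicate k T) = fgp T k) :
    ((rho T (T - B) : ℕ) : ℝ) + Real.sqrt (((K0 T : ℕ) : ℝ) * ((rho B B : ℕ) : ℝ)) ≤
      ((K0 T : ℕ) : ℝ) := by
  obtain ⟨g, hg, hlim⟩ := Asm_LIM T hT
  have hK : (1 : ℝ) ≤ ((K0 T : ℕ) : ℝ) := by exact_mod_cast (RAM T hT).2.1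
  have hg2 : g T ^ 2 = ((K0 T : ℕ) : ℝ) := by
    by_contra hne
    obtain ⟨c, hc, hev⟩ := DIC RAM Asm_LOW T hT _ hlim hne
    obtain ⟨k, hk1, hk2, hk3⟩ := (h.and_eventually (hev.and (eventually_ge_atTop 1))).exists
    rw [hk1] at hk2
    have h4 : (1 : ℝ) < c ^ k := one_lt_pow₀ hc (by omega)
    have h5 : (0 : ℝ) < ((fgp T k : ℕ) : ℝ) := by
      have h6 := (RAM T hT).2.1
      have h7 : 0 < fgp T k := by
        unfold fgp
        split_ifs
        · exact Nat.pow_pos h6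
        · exact Nat.mul_pos (by omega) (Nat.pow_pos h6)
      exact_mod_cast h7
    nlinarith
  obtain ⟨g1, hw⟩ := hg
  have hpos : ∀ b, 1 ≤ b → b ≤ T → (b : ℝ) ≤ g b := by
    intro b hb hbT
    have h1 := hw b (fun _ _ => False) (fun _ => 1) (fun _ => 1) 1 b (by omega)
      (fun _ _ h => h) (fun _ => ⟨le_rfl, le_rfl⟩) (by omega) hbT ?_ ?_
    · simpa [g1] using h1
    · intro Q hQ
      exact bd_false univ (fun _ : Fin b => 1) 1 (fun _ => le_rfl) Q (subset_univ _) hQ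
    · intro Q hQ
      calc ∑ v ∈ Q, 1 ≤ ∑ v : Fin b, 1 := sum_le_sum_of_subset (subset_univ _)
        _ = b := by simp
  have hTpos : (0 : ℝ) < g T := by
    have := hpos T (by omega) le_rfl
    have h2 : (2 : ℝ) ≤ T := by exact_mod_cast hT
    linarith
  have hBpos : (0 : ℝ) < g B := by
    have := hpos B hB hBT.le
    have h2 : (1 : ℝ) ≤ B := by exact_mod_cast hB
    linarith
  have hrho : ∀ a b, 1 ≤ rho a b → a ≤ T → b ≤ T → ((rho a b : ℕ) : ℝ) ≤ g a * g b := by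
    intro a b h0 ha hb
    obtain ⟨r, hr, h1, h2⟩ := rho_ex a b
    have h3 := hw (rho a b) r (fun _ => 1) (fun _ => 1) a b (by omega) hr
      (fun _ => ⟨le_rfl, le_rfl⟩) ha hb (fun Q hQ => h1 Q (subset_univ _) hQ)
      (fun Q hQ => h2 Q (subset_univ _) hQ)
    simpa [g1] using h3
  have hsum : g T * g (T - B) + g T * g B ≤ g T * g T := by
    have h3 := hw 2 (fun _ _ => False) (fun _ => T) (![T - B, B]) T T (by omega)
      (fun _ _ h => h) (fun v => ⟨by omega, by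
        fin_cases v
        · show 1 ≤ T - B
          omega
        · exact hB⟩) le_rfl le_rfl ?_ ?_
    · simpa [Fin.sum_univ_two] using h3
    · intro Q hQ
      exact bd_false univ (fun _ : Fin 2 => T) T (fun _ => le_rfl) Q (subset_univ _) hQ
    · intro Q hQ
      calc ∑ v ∈ Q, (![T - B, B]) v ≤ ∑ v : Fin 2, (![T - B, B]) v :=
            sum_le_sum_of_subset (subset_univ _)
        _ = T := by
          rw [Fin.sum_univ_two]
          show T - B + B = T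
          omega
  have hA : ((rho T (T - B) : ℕ) : ℝ) ≤ g T * g (T - B) := by
    rcases Nat.eq_zero_or_pos (rho T (T - B)) with h0 | h0
    · rw [h0]
      have := hpos (T - B) (by omega) (by omega)
      have h2 : (0 : ℝ) ≤ ((T - B : ℕ) : ℝ) := Nat.cast_nonneg _
      have h3 : (0 : ℝ) ≤ g (T - B) := le_trans h2 this
      simpa using mul_nonneg hTpos.le h3
    · exact hrho T (T - B) h0 le_rfl (by omega)
  have hC : Real.sqrt (((K0 T : ℕ) : ℝ) * ((rho B B : ℕ) : ℝ)) ≤ g T * g B := by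
    apply Real.sqrt_le_iff.2
    refine ⟨by positivity, ?_⟩
    rw [mul_pow, hg2]
    apply mul_le_mul_of_nonneg_left _ (by linarith)
    rcases Nat.eq_zero_or_pos (rho B B) with h0 | h0
    · rw [h0]
      simpa using sq_nonneg (g B)
    · have := hrho B B h0 hBT.le hBT.le
      rw [sq]
      exact this
  have hgg : g T * g T = ((K0 T : ℕ) : ℝ) := by rw [← sq]; exact hg2
  linarith

end Pool.Agent.helper6.RD
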